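import Pool.Agent.N116.EW.Stm3
import Pool.Agent.N116.EW.Close
import Pool.Agent.N839.EW.PL
import Pool.Agent.H984R4.NP.ModelLem

/-!
Project EW, part EW9: the boundary arcs as curves (helper97).
-/

set_option autoImplicit false

namespace Pool.Agent.N97.EW

open H974 H12S H389NS H984N H984P H342P Finset Pool.Agent.N116.EW
open H342L (cdist Curve)
open Pool.Agent.N839.EW
open H984N.ML (qx qy pos_re pos_im qx_le qy_le dist_le_of)

/-! ### piecewise linear curves, pieces which are matched affinely -/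

theorem exists_iso {N N' m : ℕ} {a b : ℕ → ℕ} (hN : 0 < N) (hN' : 0 < N') (ha0 : a 0 = 0)
    (hb0 : b 0 = 0) (ham : a m = N) (hbm : b m = N') (ha : ∀ i < m, a i < a (i + 1))
    (hb : ∀ i < m, b i < b (i + 1)) :
    ∃ φ : unitInterval ≃o unitInterval, ∀ s : unitInterval,
      ((φ s : unitInterval) : ℝ) = hm N N' m a b s := by
  have hNr : (0 : ℝ) < N := Nat.cast_pos.2 hN
  have hN'r : (0 : ℝ) < N' := Nat.cast_pos.2 hN'
  have hm0 : 0 < m := by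
    rcases Nat.eq_zero_or_pos m with h | h
    · rw [h, ha0] at ham; omega
    · exact h
  have f0 : hm N N' m a b 0 = 0 := by
    rw [hm_seg (m := m) ha (i := 0) hm0 (by rw [ha0]; simp) (by simp) hb0, ha0, hb0]
    simp
  have f1 : hm N N' m a b 1 = 1 := by
    obtain ⟨m, rfl⟩ : ∃ j, m = j + 1 := ⟨m - 1, by omega⟩
    have h1 : (a m : ℝ) < a (m + 1) := by exact_mod_cast ha m (by omega)
    rw [hm_seg (m := m + 1) ha (i := m) (by omega) (by rw [one_mul, ← ham]; exact h1.le)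
      (by rw [one_mul, ← ham]) hb0, one_mul, ← ham, div_self (by linarith), ← hbm]
    rw [mul_one, add_sub_cancel, div_self]
    rw [hbm]; exact hN'r.ne'
  have hlt : ∀ s t : unitInterval, s < t →
      hm N N' m a b s < hm N N' m a b t := fun s t hst =>
    hm_lt hN hN' ha0 ham ha hb s.2.1 hst t.2.2
  have hle : ∀ s t : unitInterval, s ≤ t → hm N N' m a b s ≤ hm N N' m a b t := by
    intro s t hst
    rcases eq_or_lt_of_le hst with h | h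
    · rw [h]
    · exact (hlt s t h).le
  have hmem : ∀ s : unitInterval, hm N N' m a b s ∈ unitInterval := by
    intro s
    constructor
    · have := hle 0 s s.2.1
      rwa [show ((0 : unitInterval) : ℝ) = 0 from rfl, f0] at this
    · have := hle s 1 s.2.2
      rwa [show ((1 : unitInterval) : ℝ) = 1 from rfl, f1] at this
  let F : unitInterval → unitInterval := fun s => ⟨hm N N' m a b s, hmem s⟩
  have hF : StrictMono F := fun s t hst => hlt s t hst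
  have hsurj : Function.Surjective F := by
    intro y
    have hc : ContinuousOn (hm N N' m a b) (Set.Icc 0 1) := hm_cont.continuousOn
    have hivt := intermediate_value_Icc (zero_le_one : (0 : ℝ) ≤ 1) hc
    rw [f0, f1] at hivt
    obtain ⟨x, hx, hxy⟩ := hivt y.2
    exact ⟨⟨x, hx⟩, Subtype.ext hxy⟩
  exact ⟨StrictMono.orderIsoOfSurjective F hF hsurj, fun s => rfl⟩

theorem pl_affine (N m : ℕ) (p q : ℕ → ℂ) (a : ℕ → ℕ) (r : ℝ) (hN : 0 < N) (hm0 : 0 < m)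
    (ha0 : a 0 = 0) (ham : a m = N) (ha : ∀ i < m, a i < a (i + 1))
    (h : ∀ i < m, ∀ k, a i ≤ k → k ≤ a (i + 1) →
      dist (p k) (q i + (((((k : ℝ) - a i) / ((a (i + 1) : ℝ) - a i) : ℝ)) : ℂ) *
        (q (i + 1) - q i)) ≤ r) :
    ∃ φ : unitInterval ≃o unitInterval, ∀ s, dist (pl N p s) (pl m q (φ s)) ≤ r := by
  obtain ⟨φ, hφ⟩ := exists_iso (N := N) (N' := m) (m := m) (a := a) (b := fun i => i) hN hm0 ha0
    rfl ham rfl ha (fun i _ => Nat.lt_succ_self i)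
  refine ⟨φ, fun s => ?_⟩
  have hm0r : (0 : ℝ) < m := Nat.cast_pos.2 hm0
  obtain ⟨i, hi, hi1, hi2⟩ := exists_seg (m := m) (a := a) hN ha0 ham s.2.1 s.2.2
  have hda : (0 : ℝ) < (a (i + 1) : ℝ) - a i := by
    have : (a i : ℝ) < a (i + 1) := by exact_mod_cast ha i hi
    linarith
  set v : ℝ := ((s : ℝ) * N - a i) / ((a (i + 1) : ℝ) - a i) with hv
  have hv0 : 0 ≤ v := div_nonneg (by linarith) hda.le
  have hv1 : v ≤ 1 := by rw [hv, div_le_one hda]; linarith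
  have htm : ((φ s : unitInterval) : ℝ) * m = i + v := by
    rw [hφ, hm_seg (m := m) (b := fun i => i) ha hi hi1 hi2 rfl, div_mul_cancel₀ _ hm0r.ne']
    push_cast
    ring
  have haN : a (i + 1) ≤ N := by
    rw [← ham]; exact a_mono ha (by omega) le_rfl
  obtain ⟨k, hkN, hk1, hk2, hk3, hk4⟩ := sub_seg (ha i hi) haN hi1 hi2
  rw [pl_seg hkN hk3 hk4, pl_seg (s := φ s) (p := q) hi (by rw [htm]; linarith)
    (by rw [htm]; linarith), htm]
  set u : ℝ := (s : ℝ) * N - k with hu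
  have hu0 : 0 ≤ u := by rw [hu]; linarith
  have hu1 : u ≤ 1 := by rw [hu]; linarith
  have h1 := h i hi k hk1 (by omega)
  have h2 := h i hi (k + 1) (by omega) hk2
  rw [dist_eq_norm] at h1 h2 ⊢
  set v1 : ℝ := ((k : ℝ) - a i) / ((a (i + 1) : ℝ) - a i) with hv1'
  set v2 : ℝ := (((k + 1 : ℕ) : ℝ) - a i) / ((a (i + 1) : ℝ) - a i) with hv2'
  have hvv : v = (1 - u) * v1 + u * v2 := by
    rw [hv, hv1', hv2', hu]
    push_cast
    field_simp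
    ring
  have e : p k + (u : ℂ) * (p (k + 1) - p k) -
      (q i + (((i + v - i : ℝ)) : ℂ) * (q (i + 1) - q i)) =
      ((1 - u : ℝ) : ℂ) * (p k - (q i + (v1 : ℂ) * (q (i + 1) - q i))) +
        (u : ℂ) * (p (k + 1) - (q i + (v2 : ℂ) * (q (i + 1) - q i))) := by
    rw [add_sub_cancel_left, hvv]
    push_cast
    ring
  rw [e]
  calc ‖((1 - u : ℝ) : ℂ) * (p k - (q i + (v1 : ℂ) * (q (i + 1) - q i))) +
        (u : ℂ) * (p (k + 1) - (q i + (v2 : ℂ) * (q (i + 1) - q i)))‖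
      ≤ ‖((1 - u : ℝ) : ℂ) * (p k - (q i + (v1 : ℂ) * (q (i + 1) - q i)))‖ +
        ‖(u : ℂ) * (p (k + 1) - (q i + (v2 : ℂ) * (q (i + 1) - q i)))‖ := norm_add_le _ _
    _ = (1 - u) * ‖p k - (q i + (v1 : ℂ) * (q (i + 1) - q i))‖ +
        u * ‖p (k + 1) - (q i + (v2 : ℂ) * (q (i + 1) - q i))‖ := by
        rw [norm_mul, norm_mul, Complex.norm_real, Complex.norm_real, Real.norm_eq_abs,
          Real.norm_eq_abs, abs_of_nonneg hu0, abs_of_nonneg (by linarith)]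
    _ ≤ (1 - u) * r + u * r :=
        add_le_add (mul_le_mul_of_nonneg_left h1 (by linarith))
          (mul_le_mul_of_nonneg_left h2 hu0)
    _ = r := by ring

/-! ### one leg -/

theorem leg_coord (X u w : ℤ) (σ : ℤ) (k n : ℕ) (hn : 0 < n) (hk : k ≤ n)
    (h1 : |2 * X - (2 * u + σ * k)| ≤ 2) (h2 : |σ * n - 2 * (w - u)| ≤ 1) :
    |(X : ℝ) - (u + ((k : ℝ) / n) * ((w : ℝ) - u))| ≤ 3 / 2 := by
  have h1' : |2 * (X : ℝ) - (2 * u + σ * k)| ≤ 2 := by exact_mod_cast h1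
  have h2' : |(σ : ℝ) * n - 2 * ((w : ℝ) - u)| ≤ 1 := by exact_mod_cast h2
  have hn' : (0 : ℝ) < n := Nat.cast_pos.2 hn
  have hk' : (k : ℝ) ≤ n := by exact_mod_cast hk
  have hv0 : 0 ≤ (k : ℝ) / n := by positivity
  have hv1 : (k : ℝ) / n ≤ 1 := by rw [div_le_one hn']; exact hk'
  have e : (X : ℝ) - (u + ((k : ℝ) / n) * ((w : ℝ) - u)) =
      (1 / 2) * (2 * (X : ℝ) - (2 * u + σ * k)) +
        (1 / 2) * ((k : ℝ) / n) * ((σ : ℝ) * n - 2 * ((w : ℝ) - u)) := by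
    field_simp
    ring
  rw [e]
  refine (abs_add_le _ _).trans ?_
  rw [abs_mul, abs_mul, abs_mul, abs_of_nonneg hv0, abs_of_pos (by norm_num : (0 : ℝ) < 1 / 2)]
  have : (1 / 2 : ℝ) * ((k : ℝ) / n) * |(σ : ℝ) * n - 2 * ((w : ℝ) - u)| ≤ 1 / 2 * 1 * 1 := by
    apply mul_le_mul _ h2' (abs_nonneg _) (by norm_num)
    linarith
  linarith

theorem pos_leg {δ : ℝ} (hδ : 0 < δ) (σ : St) (c c' : ℤ × ℤ) (C C' : ℂ) (v : ℝ) (hv0 : 0 ≤ v)
    (hv1 : v ≤ 1)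
    (h1 : |(σ.1.1 : ℝ) - (c.1 + v * ((c'.1 : ℝ) - c.1))| ≤ 3 / 2)
    (h2 : |(σ.1.2 : ℝ) - (c.2 + v * ((c'.2 : ℝ) - c.2))| ≤ 3 / 2)
    (e1 : |δ * c.1 - C.re| ≤ 2 * δ) (e2 : |δ * c.2 - C.im| ≤ 2 * δ)
    (e1' : |δ * c'.1 - C'.re| ≤ 2 * δ) (e2' : |δ * c'.2 - C'.im| ≤ 2 * δ) :
    dist (pos δ σ) (C + (v : ℂ) * (C' - C)) ≤ 10 * δ := by
  have gen : ∀ (X a b A B q : ℝ), |X - (a + v * (b - a))| ≤ 3 / 2 → |δ * a - A| ≤ 2 * δ →
      |δ * b - B| ≤ 2 * δ → |q| ≤ 5 / 4 → |δ * (X + q) - (A + v * (B - A))| ≤ 5 * δ := by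
    intro X a b A B q k1 k2 k3 k4
    have e : δ * (X + q) - (A + v * (B - A)) = δ * (X - (a + v * (b - a))) + δ * q +
        (1 - v) * (δ * a - A) + v * (δ * b - B) := by ring
    rw [e]
    have j1 : |δ * (X - (a + v * (b - a)))| ≤ δ * (3 / 2) := by
      rw [abs_mul, abs_of_pos hδ]; exact mul_le_mul_of_nonneg_left k1 hδ.le
    have j2 : |δ * q| ≤ δ * (5 / 4) := by
      rw [abs_mul, abs_of_pos hδ]; exact mul_le_mul_of_nonneg_left k4 hδ.le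
    have j3 : |(1 - v) * (δ * a - A)| ≤ (1 - v) * (2 * δ) := by
      rw [abs_mul, abs_of_nonneg (by linarith)]
      exact mul_le_mul_of_nonneg_left k2 (by linarith)
    have j4 : |v * (δ * b - B)| ≤ v * (2 * δ) := by
      rw [abs_mul, abs_of_nonneg hv0]
      exact mul_le_mul_of_nonneg_left k3 hv0
    have t1 := abs_add_le (δ * (X - (a + v * (b - a))) + δ * q + (1 - v) * (δ * a - A))
      (v * (δ * b - B))
    have t2 := abs_add_le (δ * (X - (a + v * (b - a))) + δ * q) ((1 - v) * (δ * a - A))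
    have t3 := abs_add_le (δ * (X - (a + v * (b - a)))) (δ * q)
    linarith
  have hx : |qx σ.2| ≤ 5 / 4 := (qx_le σ.2).trans (by norm_num)
  have hy : |1 + qy σ.2| ≤ 5 / 4 := by
    have := qy_le σ.2
    refine (abs_add_le _ _).trans ?_
    rw [abs_one]
    linarith
  have r1 := gen _ _ _ _ _ _ h1 e1 e1' hx
  have r2 := gen _ _ _ _ _ _ h2 e2 e2' hy
  have er : (C + (v : ℂ) * (C' - C)).re = C.re + v * (C'.re - C.re) := by simp
  have ei : (C + (v : ℂ) * (C' - C)).im = C.im + v * (C'.im - C.im) := by simp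
  have := dist_le_of (z := pos δ σ) (w := C + (v : ℂ) * (C' - C)) (a := 5 * δ) (b := 5 * δ)
    (by rw [pos_re, er]; exact r1) (by rw [pos_im, ei, add_assoc]; exact r2)
  linarith

/-- three legs -/
theorem three {δ : ℝ} (hδ : 0 < δ) (w : ℕ → St) (N a1 a2 : ℕ) (h01 : 0 < a1) (h12 : a1 < a2)
    (h23 : a2 < N) (c0 c1 c2 c3 : ℤ × ℤ) (q : ℕ → ℂ)
    (L1 : ∀ k ≤ a1, |((w k).1.1 : ℝ) - (c0.1 + ((k : ℝ) / a1) * ((c1.1 : ℝ) - c0.1))| ≤ 3 / 2 ∧
      |((w k).1.2 : ℝ) - (c0.2 + ((k : ℝ) / a1) * ((c1.2 : ℝ) - c0.2))| ≤ 3 / 2)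
    (L2 : ∀ k ≤ a2 - a1, |((w (a1 + k)).1.1 : ℝ) -
        (c1.1 + ((k : ℝ) / ((a2 - a1 : ℕ) : ℝ)) * ((c2.1 : ℝ) - c1.1))| ≤ 3 / 2 ∧
      |((w (a1 + k)).1.2 : ℝ) -
        (c1.2 + ((k : ℝ) / ((a2 - a1 : ℕ) : ℝ)) * ((c2.2 : ℝ) - c1.2))| ≤ 3 / 2)
    (L3 : ∀ k ≤ N - a2, |((w (a2 + k)).1.1 : ℝ) -
        (c2.1 + ((k : ℝ) / ((N - a2 : ℕ) : ℝ)) * ((c3.1 : ℝ) - c2.1))| ≤ 3 / 2 ∧
      |((w (a2 + k)).1.2 : ℝ) -
        (c2.2 + ((k : ℝ) / ((N - a2 : ℕ) : ℝ)) * ((c3.2 : ℝ) - c2.2))| ≤ 3 / 2)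
    (e0 : |δ * c0.1 - (q 0).re| ≤ 2 * δ ∧ |δ * c0.2 - (q 0).im| ≤ 2 * δ)
    (e1 : |δ * c1.1 - (q 1).re| ≤ 2 * δ ∧ |δ * c1.2 - (q 1).im| ≤ 2 * δ)
    (e2 : |δ * c2.1 - (q 2).re| ≤ 2 * δ ∧ |δ * c2.2 - (q 2).im| ≤ 2 * δ)
    (e3 : |δ * c3.1 - (q 3).re| ≤ 2 * δ ∧ |δ * c3.2 - (q 3).im| ≤ 2 * δ) :
    cdist (pl N (fun k => pos δ (w k))) (pl 3 q) ≤ 10 * δ := by
  set a : ℕ → ℕ := fun i => if i = 0 then 0 else if i = 1 then a1 else if i = 2 then a2 else N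
    with ha
  have A0 : a 0 = 0 := rfl
  have A1 : a 1 = a1 := rfl
  have A2 : a 2 = a2 := rfl
  have A3 : a 3 = N := rfl
  obtain ⟨φ, hφ⟩ := pl_affine N 3 (fun k => pos δ (w k)) q a (10 * δ) (by omega) (by norm_num)
    A0 A3 (by
      intro i hi
      interval_cases i
      · rw [A0, zero_add, A1]; exact h01
      · rw [A1]; show a1 < a 2; rw [A2]; exact h12
      · rw [A2]; show a2 < a 3; rw [A3]; exact h23) (by
      intro i hi k hk1 hk2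
      interval_cases i
      · rw [A0] at hk1
        rw [zero_add, A1] at hk2
        rw [A0, zero_add, A1]
        have hv : ((k : ℝ) - ((0 : ℕ) : ℝ)) / ((a1 : ℝ) - ((0 : ℕ) : ℝ)) = (k : ℝ) / a1 := by
          simp
        rw [hv]
        have h1' : (0 : ℝ) < a1 := Nat.cast_pos.2 h01
        have h2' : (k : ℝ) ≤ a1 := by exact_mod_cast hk2
        exact pos_leg hδ (w k) c0 c1 (q 0) (q 1) _ (by positivity)
          (by rw [div_le_one h1']; exact h2') (L1 k hk2).1 (L1 k hk2).2 e0.1 e0.2 e1.1 e1.2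
      · rw [A1] at hk1
        change k ≤ a 2 at hk2
        rw [A2] at hk2
        show dist (pos δ (w k)) (q 1 + (((((k : ℝ) - a 1) / ((a 2 : ℝ) - a 1) : ℝ)) : ℂ) *
          (q 2 - q 1)) ≤ 10 * δ
        rw [A1, A2]
        obtain ⟨j, rfl⟩ : ∃ j, k = a1 + j := ⟨k - a1, by omega⟩
        have hv : (((a1 + j : ℕ) : ℝ) - (a1 : ℝ)) / ((a2 : ℝ) - (a1 : ℝ)) =
            (j : ℝ) / ((a2 - a1 : ℕ) : ℝ) := by
          rw [Nat.cast_sub h12.le]; push_cast; ring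
        rw [hv]
        have h1' : (0 : ℝ) < ((a2 - a1 : ℕ) : ℝ) := Nat.cast_pos.2 (by omega)
        have h2' : (j : ℝ) ≤ ((a2 - a1 : ℕ) : ℝ) := by
          exact_mod_cast (show j ≤ a2 - a1 by omega)
        exact pos_leg hδ (w (a1 + j)) c1 c2 (q 1) (q 2) _ (by positivity)
          (by rw [div_le_one h1']; exact h2') (L2 j (by omega)).1 (L2 j (by omega)).2
          e1.1 e1.2 e2.1 e2.2
      · rw [A2] at hk1
        change k ≤ a 3 at hk2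
        rw [A3] at hk2
        show dist (pos δ (w k)) (q 2 + (((((k : ℝ) - a 2) / ((a 3 : ℝ) - a 2) : ℝ)) : ℂ) *
          (q 3 - q 2)) ≤ 10 * δ
        rw [A2, A3]
        obtain ⟨j, rfl⟩ : ∃ j, k = a2 + j := ⟨k - a2, by omega⟩
        have hv : (((a2 + j : ℕ) : ℝ) - (a2 : ℝ)) / ((N : ℝ) - (a2 : ℝ)) =
            (j : ℝ) / ((N - a2 : ℕ) : ℝ) := by
          rw [Nat.cast_sub h23.le]; push_cast; ring
        rw [hv]
        have h1' : (0 : ℝ) < ((N - a2 : ℕ) : ℝ) := Nat.cast_pos.2 (by omega)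
        have h2' : (j : ℝ) ≤ ((N - a2 : ℕ) : ℝ) := by
          exact_mod_cast (show j ≤ N - a2 by omega)
        exact pos_leg hδ (w (a2 + j)) c2 c3 (q 2) (q 3) _ (by positivity)
          (by rw [div_le_one h1']; exact h2') (L3 j (by omega)).1 (L3 j (by omega)).2
          e2.1 e2.2 e3.1 e3.2)
  exact cdist_le_of (by positivity) φ hφ

theorem len_eq (D : Dm) (F : Finset Edg) (N : ℕ) (h1 : D.walk F N = Dm.stop)
    (h2 : ∀ k < N, D.walk F k ≠ Dm.stop) : D.len F = N := by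
  unfold Dm.len
  apply le_antisymm
  · exact Nat.sInf_le h1
  · refine le_csInf ⟨N, h1⟩ fun k hk => ?_
    by_contra hlt
    exact h2 k (not_le.1 hlt) hk

/-! ### all edges open -/

section right

variable {D : Dm}

theorem memR_true (hD : D.Ok) (x y : ℤ) : ((x, y, true) : Edg) ∈ D.cfg D.edges ↔
    D.l ≤ x ∧ x < D.r ∧ 0 ≤ y ∧ y ≤ D.h := by
  obtain ⟨h1, h2, h3, h4, h5⟩ := hD
  unfold Dm.cfg Dm.wir Dm.edges
  simp only [Set.mem_union, Finset.mem_coe, mem_RE_true, Set.mem_setOf_eq]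
  constructor
  · rintro (h | ⟨-, h, h', h''⟩ | ⟨h, -⟩ | ⟨-, h, h', h''⟩)
    · exact h
    · omega
    · exact absurd h (by simp)
    · omega
  · intro h; exact Or.inl h

theorem memR_false (hD : D.Ok) (x y : ℤ) : ((x, y, false) : Edg) ∈ D.cfg D.edges ↔
    D.l ≤ x ∧ x ≤ D.r ∧ 0 ≤ y ∧ y < D.h := by
  obtain ⟨h1, h2, h3, h4, h5⟩ := hD
  unfold Dm.cfg Dm.wir Dm.edges
  simp only [Set.mem_union, Finset.mem_coe, mem_RE_false, Set.mem_setOf_eq]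
  constructor
  · rintro (h | ⟨h, -⟩ | ⟨-, h, h', h''⟩ | ⟨h, -⟩)
    · exact h
    · exact absurd h (by simp)
    · omega
    · exact absurd h (by simp)
  · intro h; exact Or.inl h

theorem R1 (hD : D.Ok) (n1 : ℕ) (hn1 : (n1 : ℤ) = D.r - D.t) :
    ∀ j : ℕ, (j ≤ n1 → D.walk D.edges (2 * j) = ((D.t + j, D.h), .ne)) ∧
      (j < n1 → D.walk D.edges (2 * j + 1) = ((D.t + j + 1, D.h), .nw)) := by
  have hD' := hD
  obtain ⟨h1, h2, h3, h4, h5⟩ := hD'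
  intro j
  induction j with
  | zero =>
    have h0 : D.walk D.edges 0 = ((D.t, D.h), .ne) := rfl
    refine ⟨fun _ => by rw [mul_zero, h0]; simp, fun h => ?_⟩
    rw [mul_zero, walk_succ, h0, nxt_open (by rw [ae_ne, memR_true hD]; omega), mv_ne]
    simp
  | succ j ih =>
    obtain ⟨-, ih2⟩ := ih
    have key : j + 1 ≤ n1 → D.walk D.edges (2 * (j + 1)) = ((D.t + (j + 1 : ℕ), D.h), .ne) := by
      intro hj
      rw [show 2 * (j + 1) = 2 * j + 1 + 1 by ring, walk_succ, ih2 (by omega),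
        nxt_closed (by rw [ae_nw, memR_false hD]; omega), rt_nw]
      push_cast
      rw [add_assoc]
    refine ⟨key, fun hj => ?_⟩
    rw [walk_succ, key (by omega), nxt_open (by rw [ae_ne, memR_true hD]; push_cast; omega), mv_ne]

theorem R2 (hD : D.Ok) (n1 n2 : ℕ) (hn1 : (n1 : ℤ) = D.r - D.t) (hn2 : (n2 : ℤ) = D.h) :
    ∀ j : ℕ, (j ≤ n2 → D.walk D.edges (2 * n1 + 1 + 2 * j) = ((D.r, D.h - j), .se)) ∧
      (j < n2 → D.walk D.edges (2 * n1 + 1 + (2 * j + 1)) = ((D.r, D.h - j - 1), .ne)) := by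
  have hD' := hD
  obtain ⟨h1, h2, h3, h4, h5⟩ := hD'
  intro j
  induction j with
  | zero =>
    have h0 : D.walk D.edges (2 * n1 + 1) = ((D.r, D.h), .se) := by
      rw [walk_succ, (R1 hD n1 hn1 n1).1 le_rfl, hn1, add_sub_cancel,
        nxt_closed (by rw [ae_ne, memR_true hD]; omega), rt_ne]
    refine ⟨fun _ => by rw [mul_zero, add_zero, h0]; simp, fun h => ?_⟩
    rw [mul_zero, ← add_assoc, add_zero, walk_succ, h0,
      nxt_open (by rw [ae_se, memR_false hD]; omega), mv_se]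
    simp
  | succ j ih =>
    obtain ⟨-, ih2⟩ := ih
    have key : j + 1 ≤ n2 → D.walk D.edges (2 * n1 + 1 + 2 * (j + 1)) =
        ((D.r, D.h - (j + 1 : ℕ)), .se) := by
      intro hj
      rw [show 2 * n1 + 1 + 2 * (j + 1) = 2 * n1 + 1 + (2 * j + 1) + 1 by ring, walk_succ,
        ih2 (by omega), nxt_closed (by rw [ae_ne, memR_true hD]; omega), rt_ne]
      push_cast
      rw [sub_sub]
    refine ⟨key, fun hj => ?_⟩
    rw [← add_assoc, walk_succ, key (by omega),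
      nxt_open (by rw [ae_se, memR_false hD]; push_cast; omega), mv_se]

theorem R3 (hD : D.Ok) (n1 n2 n3 : ℕ) (hn1 : (n1 : ℤ) = D.r - D.t) (hn2 : (n2 : ℤ) = D.h)
    (hn3 : (n3 : ℤ) = D.r) :
    ∀ j : ℕ, (j ≤ n3 → D.walk D.edges (2 * n1 + 1 + 2 * n2 + 2 * j) = ((D.r - j, 0), .se)) ∧
      (j < n3 → D.walk D.edges (2 * n1 + 1 + 2 * n2 + (2 * j + 1)) = ((D.r - j, 0), .sw)) := by
  have hD' := hD
  obtain ⟨h1, h2, h3, h4, h5⟩ := hD'
  intro j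
  induction j with
  | zero =>
    have h0 : D.walk D.edges (2 * n1 + 1 + 2 * n2) = ((D.r, 0), .se) := by
      rw [(R2 hD n1 n2 hn1 hn2 n2).1 le_rfl, hn2, sub_self]
    refine ⟨fun _ => by rw [mul_zero, add_zero, h0]; simp, fun h => ?_⟩
    rw [mul_zero, ← add_assoc, add_zero, walk_succ, h0,
      nxt_closed (by rw [ae_se, memR_false hD]; omega), rt_se]
    simp
  | succ j ih =>
    obtain ⟨-, ih2⟩ := ih
    have key : j + 1 ≤ n3 → D.walk D.edges (2 * n1 + 1 + 2 * n2 + 2 * (j + 1)) =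
        ((D.r - (j + 1 : ℕ), 0), .se) := by
      intro hj
      rw [show 2 * n1 + 1 + 2 * n2 + 2 * (j + 1) = 2 * n1 + 1 + 2 * n2 + (2 * j + 1) + 1 by ring,
        walk_succ, ih2 (by omega), nxt_open (by rw [ae_sw, memR_true hD]; omega), mv_sw]
      push_cast
      rw [sub_sub]
    refine ⟨key, fun hj => ?_⟩
    rw [← add_assoc, walk_succ, key (by omega),
      nxt_closed (by rw [ae_se, memR_false hD]; omega), rt_se]

/-- the vertices on the three legs, and the number of steps -/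
theorem Rall (hD : D.Ok) : ∃ a1 a2 N : ℕ, 0 < a1 ∧ a1 < a2 ∧ a2 < N ∧ D.len D.edges = N ∧
    |(2 : ℤ) * a1 - 2 * (2 * (D.r - D.t))| ≤ 2 ∧
    |(2 : ℤ) * ((a2 - a1 : ℕ) : ℤ) - 2 * (2 * D.h)| ≤ 2 ∧
    |(2 : ℤ) * ((N - a2 : ℕ) : ℤ) - 2 * (2 * D.r)| ≤ 2 ∧
    (∀ k ≤ a1, (D.walk D.edges k).1.2 = D.h ∧
      |2 * (D.walk D.edges k).1.1 - (2 * D.t + 1 * k)| ≤ 2) ∧
    (∀ k ≤ a2 - a1, (D.walk D.edges (a1 + k)).1.1 = D.r ∧
      |2 * (D.walk D.edges (a1 + k)).1.2 - (2 * D.h + (-1) * k)| ≤ 2) ∧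
    (∀ k ≤ N - a2, (D.walk D.edges (a2 + k)).1.2 = 0 ∧
      |2 * (D.walk D.edges (a2 + k)).1.1 - (2 * D.r + (-1) * k)| ≤ 2) := by
  have hD' := hD
  obtain ⟨h1, h2, h3, h4, h5⟩ := hD'
  obtain ⟨n1, hn1⟩ : ∃ n : ℕ, (n : ℤ) = D.r - D.t := ⟨(D.r - D.t).toNat, by omega⟩
  obtain ⟨n2, hn2⟩ : ∃ n : ℕ, (n : ℤ) = D.h := ⟨D.h.toNat, by omega⟩
  obtain ⟨n3, hn3⟩ : ∃ n : ℕ, (n : ℤ) = D.r := ⟨D.r.toNat, by omega⟩
  have r1 := R1 hD n1 hn1
  have r2 := R2 hD n1 n2 hn1 hn2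
  have r3 := R3 hD n1 n2 n3 hn1 hn2 hn3
  have F1 : ∀ k ≤ 2 * n1 + 1, (D.walk D.edges k).1.2 = D.h ∧
      |2 * (D.walk D.edges k).1.1 - (2 * D.t + 1 * k)| ≤ 2 := by
    intro k hk
    rcases Nat.even_or_odd' k with ⟨j, rfl | rfl⟩
    · rw [(r1 j).1 (by omega)]
      refine ⟨rfl, ?_⟩
      show |2 * (D.t + j) - (2 * D.t + 1 * ((2 * j : ℕ) : ℤ))| ≤ 2
      rw [abs_le]; push_cast; constructor <;> linarith
    · rcases Nat.lt_or_ge j n1 with hj | hj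
      · rw [(r1 j).2 hj]
        refine ⟨rfl, ?_⟩
        show |2 * (D.t + j + 1) - (2 * D.t + 1 * ((2 * j + 1 : ℕ) : ℤ))| ≤ 2
        rw [abs_le]; push_cast; constructor <;> linarith
      · obtain rfl : j = n1 := by omega
        have h0 := (r2 0).1 (Nat.zero_le _)
        rw [mul_zero, add_zero] at h0
        rw [h0]
        refine ⟨by simp, ?_⟩
        show |2 * D.r - (2 * D.t + 1 * ((2 * j + 1 : ℕ) : ℤ))| ≤ 2
        rw [abs_le]; push_cast; constructor <;> linarith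
  have F2 : ∀ k ≤ 2 * n2, (D.walk D.edges (2 * n1 + 1 + k)).1.1 = D.r ∧
      |2 * (D.walk D.edges (2 * n1 + 1 + k)).1.2 - (2 * D.h + (-1) * k)| ≤ 2 := by
    intro k hk
    rcases Nat.even_or_odd' k with ⟨j, rfl | rfl⟩
    · rw [(r2 j).1 (by omega)]
      refine ⟨rfl, ?_⟩
      show |2 * (D.h - j) - (2 * D.h + (-1) * ((2 * j : ℕ) : ℤ))| ≤ 2
      rw [abs_le]; push_cast; constructor <;> linarith
    · rw [(r2 j).2 (by omega)]
      refine ⟨rfl, ?_⟩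
      show |2 * (D.h - j - 1) - (2 * D.h + (-1) * ((2 * j + 1 : ℕ) : ℤ))| ≤ 2
      rw [abs_le]; push_cast; constructor <;> linarith
  have F3 : ∀ k ≤ 2 * n3, (D.walk D.edges (2 * n1 + 1 + 2 * n2 + k)).1.2 = 0 ∧
      |2 * (D.walk D.edges (2 * n1 + 1 + 2 * n2 + k)).1.1 - (2 * D.r + (-1) * k)| ≤ 2 ∧
      (k < 2 * n3 → D.walk D.edges (2 * n1 + 1 + 2 * n2 + k) ≠ Dm.stop) := by
    intro k hk
    rcases Nat.even_or_odd' k with ⟨j, rfl | rfl⟩
    · rw [(r3 j).1 (by omega)]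
      refine ⟨rfl, ?_, ?_⟩
      · show |2 * (D.r - j) - (2 * D.r + (-1) * ((2 * j : ℕ) : ℤ))| ≤ 2
        rw [abs_le]; push_cast; constructor <;> linarith
      · intro hlt he
        have := congrArg (fun σ : St => σ.1.1) he
        change D.r - j = 0 at this
        omega
    · rw [(r3 j).2 (by omega)]
      refine ⟨rfl, ?_, ?_⟩
      · show |2 * (D.r - j) - (2 * D.r + (-1) * ((2 * j + 1 : ℕ) : ℤ))| ≤ 2
        rw [abs_le]; push_cast; constructor <;> linarith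
      · intro hlt he
        have := congrArg Prod.snd he
        simp [Dm.stop] at this
  refine ⟨2 * n1 + 1, 2 * n1 + 1 + 2 * n2, 2 * n1 + 1 + 2 * n2 + 2 * n3, by omega, by omega,
    by omega, ?_, ?_, ?_, ?_, F1, ?_, ?_⟩
  · apply len_eq
    · rw [(r3 n3).1 le_rfl, hn3, sub_self]
      rfl
    · intro k hk he
      rcases Nat.lt_or_ge k (2 * n1 + 1 + 1) with hk1 | hk1
      · have := (F1 k (by omega)).1
        rw [he] at this
        change (0 : ℤ) = D.h at this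
        omega
      rcases Nat.lt_or_ge k (2 * n1 + 1 + 2 * n2 + 1) with hk2 | hk2
      · obtain ⟨j, rfl⟩ : ∃ j, k = 2 * n1 + 1 + j := ⟨k - (2 * n1 + 1), by omega⟩
        have := (F2 j (by omega)).1
        rw [he] at this
        change (0 : ℤ) = D.r at this
        omega
      · obtain ⟨j, rfl⟩ : ∃ j, k = 2 * n1 + 1 + 2 * n2 + j := ⟨k - (2 * n1 + 1 + 2 * n2), by omega⟩
        exact (F3 j (by omega)).2.2 (by omega) he
  · rw [abs_le]; push_cast; constructor <;> linarith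
  · rw [Nat.add_sub_cancel_left, abs_le]; push_cast; constructor <;> linarith
  · rw [Nat.add_sub_cancel_left, abs_le]; push_cast; constructor <;> linarith
  · intro k hk
    exact F2 k (by omega)
  · intro k hk
    obtain ⟨g1, g2, -⟩ := F3 k (by omega)
    exact ⟨g1, g2⟩

end right

/-! ### all edges closed -/

section left

variable {D : Dm}

theorem memL_true (x y : ℤ) : ((x, y, true) : Edg) ∈ D.cfg ∅ ↔
    (y = D.h ∧ D.l ≤ x ∧ x < D.t) ∨ (y = 0 ∧ D.l ≤ x ∧ x < 0) := by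
  unfold Dm.cfg Dm.wir
  simp

theorem memL_false (x y : ℤ) : ((x, y, false) : Edg) ∈ D.cfg ∅ ↔
    x = D.l ∧ 0 ≤ y ∧ y < D.h := by
  unfold Dm.cfg Dm.wir
  simp

theorem L1 (hD : D.Ok) (n1 : ℕ) (hn1 : (n1 : ℤ) = D.t - D.l) :
    ∀ j : ℕ, (j ≤ n1 → D.walk ∅ (2 * j + 1) = ((D.t - j, D.h), .se)) ∧
      (j < n1 → D.walk ∅ (2 * j + 2) = ((D.t - j, D.h), .sw)) := by
  have hD' := hD
  obtain ⟨h1, h2, h3, h4, h5⟩ := hD'
  intro j
  induction j with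
  | zero =>
    have h0 : D.walk ∅ 0 = ((D.t, D.h), .ne) := rfl
    have h0' : D.walk ∅ (0 + 1) = ((D.t, D.h), .se) := by
      rw [walk_succ, h0, nxt_closed (by rw [ae_ne, memL_true]; omega), rt_ne]
    refine ⟨fun _ => by rw [mul_zero, h0']; simp, fun h => ?_⟩
    rw [mul_zero, show 0 + 2 = 0 + 1 + 1 by rfl, walk_succ, h0',
      nxt_closed (by rw [ae_se, memL_false]; omega), rt_se]
    simp
  | succ j ih =>
    obtain ⟨-, ih2⟩ := ih
    have key : j + 1 ≤ n1 → D.walk ∅ (2 * (j + 1) + 1) = ((D.t - (j + 1 : ℕ), D.h), .se) := by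
      intro hj
      rw [show 2 * (j + 1) + 1 = 2 * j + 2 + 1 by ring, walk_succ, ih2 (by omega),
        nxt_open (by rw [ae_sw, memL_true]; omega), mv_sw]
      push_cast
      rw [sub_sub]
    refine ⟨key, fun hj => ?_⟩
    rw [show 2 * (j + 1) + 2 = 2 * (j + 1) + 1 + 1 by ring, walk_succ, key (by omega),
      nxt_closed (by rw [ae_se, memL_false]; push_cast; omega), rt_se]

theorem L2 (hD : D.Ok) (n1 n2 : ℕ) (hn1 : (n1 : ℤ) = D.t - D.l) (hn2 : (n2 : ℤ) = D.h) :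
    ∀ j : ℕ, (j < n2 → D.walk ∅ (2 * n1 + 1 + 2 * j) = ((D.l, D.h - j), .se)) ∧
      (j < n2 → D.walk ∅ (2 * n1 + 1 + (2 * j + 1)) = ((D.l, D.h - j - 1), .ne)) := by
  have hD' := hD
  obtain ⟨h1, h2, h3, h4, h5⟩ := hD'
  intro j
  induction j with
  | zero =>
    have h0 : D.walk ∅ (2 * n1 + 1) = ((D.l, D.h), .se) := by
      rw [(L1 hD n1 hn1 n1).1 le_rfl, hn1]
      congr 2
      ring
    refine ⟨fun _ => by rw [mul_zero, add_zero, h0]; simp, fun h => ?_⟩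
    rw [mul_zero, ← add_assoc, add_zero, walk_succ, h0,
      nxt_open (by rw [ae_se, memL_false]; omega), mv_se]
    simp
  | succ j ih =>
    obtain ⟨-, ih2⟩ := ih
    have key : j + 1 < n2 → D.walk ∅ (2 * n1 + 1 + 2 * (j + 1)) =
        ((D.l, D.h - (j + 1 : ℕ)), .se) := by
      intro hj
      rw [show 2 * n1 + 1 + 2 * (j + 1) = 2 * n1 + 1 + (2 * j + 1) + 1 by ring, walk_succ,
        ih2 (by omega), nxt_closed (by rw [ae_ne, memL_true]; omega), rt_ne]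
      push_cast
      rw [sub_sub]
    refine ⟨key, fun hj => ?_⟩
    rw [← add_assoc, walk_succ, key (by omega),
      nxt_open (by rw [ae_se, memL_false]; push_cast; omega), mv_se]

theorem L3 (hD : D.Ok) (n1 n2 n3 : ℕ) (hn1 : (n1 : ℤ) = D.t - D.l) (hn2 : (n2 : ℤ) = D.h)
    (hn3 : (n3 : ℤ) = -D.l) :
    ∀ j : ℕ, (j ≤ n3 → D.walk ∅ (2 * n1 + 2 * n2 + 2 * j) = ((D.l + j, 0), .ne)) ∧
      (j < n3 → D.walk ∅ (2 * n1 + 2 * n2 + (2 * j + 1)) = ((D.l + j + 1, 0), .nw)) := by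
  have hD' := hD
  obtain ⟨h1, h2, h3, h4, h5⟩ := hD'
  intro j
  induction j with
  | zero =>
    have h0 : D.walk ∅ (2 * n1 + 2 * n2) = ((D.l, 0), .ne) := by
      obtain ⟨m, rfl⟩ : ∃ m, n2 = m + 1 := ⟨n2 - 1, by omega⟩
      rw [show 2 * n1 + 2 * (m + 1) = 2 * n1 + 1 + (2 * m + 1) by ring,
        (L2 hD n1 (m + 1) hn1 hn2 m).2 (by omega)]
      congr 2
      push_cast at hn2
      linarith
    refine ⟨fun _ => by rw [mul_zero, add_zero, h0]; simp, fun h => ?_⟩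
    rw [mul_zero, ← add_assoc, add_zero, walk_succ, h0,
      nxt_open (by rw [ae_ne, memL_true]; omega), mv_ne]
    simp
  | succ j ih =>
    obtain ⟨-, ih2⟩ := ih
    have key : j + 1 ≤ n3 → D.walk ∅ (2 * n1 + 2 * n2 + 2 * (j + 1)) =
        ((D.l + (j + 1 : ℕ), 0), .ne) := by
      intro hj
      rw [show 2 * n1 + 2 * n2 + 2 * (j + 1) = 2 * n1 + 2 * n2 + (2 * j + 1) + 1 by ring,
        walk_succ, ih2 (by omega), nxt_closed (by rw [ae_nw, memL_false]; omega), rt_nw]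
      push_cast
      rw [add_assoc]
    refine ⟨key, fun hj => ?_⟩
    rw [← add_assoc, walk_succ, key (by omega),
      nxt_open (by rw [ae_ne, memL_true]; right; refine ⟨rfl, ?_, ?_⟩ <;> push_cast <;> omega), mv_ne]

/-- the vertices on the three legs, and the number of steps -/
theorem Lall (hD : D.Ok) : ∃ a1 a2 N : ℕ, 0 < a1 ∧ a1 < a2 ∧ a2 < N ∧ D.len ∅ = N ∧
    |(2 : ℤ) * a1 - 2 * (2 * (D.t - D.l))| ≤ 2 ∧
    |(2 : ℤ) * ((a2 - a1 : ℕ) : ℤ) - 2 * (2 * D.h)| ≤ 2 ∧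
    |(2 : ℤ) * ((N - a2 : ℕ) : ℤ) - 2 * (2 * (-D.l))| ≤ 2 ∧
    (∀ k ≤ a1, (D.walk ∅ k).1.2 = D.h ∧
      |2 * (D.walk ∅ k).1.1 - (2 * D.t + (-1) * k)| ≤ 2) ∧
    (∀ k ≤ a2 - a1, (D.walk ∅ (a1 + k)).1.1 = D.l ∧
      |2 * (D.walk ∅ (a1 + k)).1.2 - (2 * D.h + (-1) * k)| ≤ 2) ∧
    (∀ k ≤ N - a2, (D.walk ∅ (a2 + k)).1.2 = 0 ∧
      |2 * (D.walk ∅ (a2 + k)).1.1 - (2 * D.l + 1 * k)| ≤ 2) := by
  have hD' := hD
  obtain ⟨h1, h2, h3, h4, h5⟩ := hD'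
  obtain ⟨n1, hn1⟩ : ∃ n : ℕ, (n : ℤ) = D.t - D.l := ⟨(D.t - D.l).toNat, by omega⟩
  obtain ⟨n2, hn2⟩ : ∃ n : ℕ, (n : ℤ) = D.h := ⟨D.h.toNat, by omega⟩
  obtain ⟨n3, hn3⟩ : ∃ n : ℕ, (n : ℤ) = -D.l := ⟨(-D.l).toNat, by omega⟩
  have r1 := L1 hD n1 hn1
  have r2 := L2 hD n1 n2 hn1 hn2
  have r3 := L3 hD n1 n2 n3 hn1 hn2 hn3
  have F1 : ∀ k ≤ 2 * n1 + 1, (D.walk ∅ k).1.2 = D.h ∧
      |2 * (D.walk ∅ k).1.1 - (2 * D.t + (-1) * k)| ≤ 2 := by
    intro k hk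
    rcases Nat.eq_zero_or_pos k with rfl | hk0
    · have h0 : D.walk ∅ 0 = ((D.t, D.h), .ne) := rfl
      rw [h0]
      refine ⟨rfl, ?_⟩
      simp
    obtain ⟨k, rfl⟩ : ∃ k', k = k' + 1 := ⟨k - 1, by omega⟩
    rcases Nat.even_or_odd' k with ⟨j, rfl | rfl⟩
    · rw [(r1 j).1 (by omega)]
      refine ⟨rfl, ?_⟩
      show |2 * (D.t - j) - (2 * D.t + (-1) * ((2 * j + 1 : ℕ) : ℤ))| ≤ 2
      rw [abs_le]; push_cast; constructor <;> linarith
    · rw [show 2 * j + 1 + 1 = 2 * j + 2 by ring, (r1 j).2 (by omega)]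
      refine ⟨rfl, ?_⟩
      show |2 * (D.t - j) - (2 * D.t + (-1) * ((2 * j + 2 : ℕ) : ℤ))| ≤ 2
      rw [abs_le]; push_cast; constructor <;> linarith
  have F2 : ∀ k ≤ 2 * n2 - 1, (D.walk ∅ (2 * n1 + 1 + k)).1.1 = D.l ∧
      |2 * (D.walk ∅ (2 * n1 + 1 + k)).1.2 - (2 * D.h + (-1) * k)| ≤ 2 := by
    intro k hk
    rcases Nat.even_or_odd' k with ⟨j, rfl | rfl⟩
    · rw [(r2 j).1 (by omega)]
      refine ⟨rfl, ?_⟩
      show |2 * (D.h - j) - (2 * D.h + (-1) * ((2 * j : ℕ) : ℤ))| ≤ 2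
      rw [abs_le]; push_cast; constructor <;> linarith
    · rw [(r2 j).2 (by omega)]
      refine ⟨rfl, ?_⟩
      show |2 * (D.h - j - 1) - (2 * D.h + (-1) * ((2 * j + 1 : ℕ) : ℤ))| ≤ 2
      rw [abs_le]; push_cast; constructor <;> linarith
  have hst : D.walk ∅ (2 * n1 + 2 * n2 + (2 * n3 + 1)) = Dm.stop := by
    rw [← add_assoc, walk_succ, (r3 n3).1 le_rfl, hn3, add_neg_cancel,
      nxt_closed (by rw [ae_ne, memL_true]; omega), rt_ne]
    rfl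
  have F3 : ∀ k ≤ 2 * n3 + 1, (D.walk ∅ (2 * n1 + 2 * n2 + k)).1.2 = 0 ∧
      |2 * (D.walk ∅ (2 * n1 + 2 * n2 + k)).1.1 - (2 * D.l + 1 * k)| ≤ 2 ∧
      (k < 2 * n3 + 1 → D.walk ∅ (2 * n1 + 2 * n2 + k) ≠ Dm.stop) := by
    intro k hk
    rcases Nat.even_or_odd' k with ⟨j, rfl | rfl⟩
    · rw [(r3 j).1 (by omega)]
      refine ⟨rfl, ?_, ?_⟩
      · show |2 * (D.l + j) - (2 * D.l + 1 * ((2 * j : ℕ) : ℤ))| ≤ 2
        rw [abs_le]; push_cast; constructor <;> linarith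
      · intro hlt he
        have := congrArg Prod.snd he
        simp [Dm.stop] at this
    · rcases Nat.lt_or_ge j n3 with hj | hj
      · rw [(r3 j).2 hj]
        refine ⟨rfl, ?_, ?_⟩
        · show |2 * (D.l + j + 1) - (2 * D.l + 1 * ((2 * j + 1 : ℕ) : ℤ))| ≤ 2
          rw [abs_le]; push_cast; constructor <;> linarith
        · intro hlt he
          have := congrArg Prod.snd he
          simp [Dm.stop] at this
      · obtain rfl : j = n3 := by omega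
        rw [hst]
        refine ⟨rfl, ?_, fun h => absurd h (lt_irrefl _)⟩
        show |2 * (0 : ℤ) - (2 * D.l + 1 * ((2 * j + 1 : ℕ) : ℤ))| ≤ 2
        rw [abs_le]; push_cast; constructor <;> linarith
  refine ⟨2 * n1 + 1, 2 * n1 + 2 * n2, 2 * n1 + 2 * n2 + (2 * n3 + 1), by omega, by omega,
    by omega, ?_, ?_, ?_, ?_, F1, ?_, ?_⟩
  · apply len_eq
    · exact hst
    · intro k hk he
      rcases Nat.lt_or_ge k (2 * n1 + 1 + 1) with hk1 | hk1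
      · have := (F1 k (by omega)).1
        rw [he] at this
        change (0 : ℤ) = D.h at this
        omega
      rcases Nat.lt_or_ge k (2 * n1 + 2 * n2 + 1) with hk2 | hk2
      · obtain ⟨j, rfl⟩ : ∃ j, k = 2 * n1 + 1 + j := ⟨k - (2 * n1 + 1), by omega⟩
        have := (F2 j (by omega)).1
        rw [he] at this
        change (0 : ℤ) = D.l at this
        omega
      · obtain ⟨j, rfl⟩ : ∃ j, k = 2 * n1 + 2 * n2 + j := ⟨k - (2 * n1 + 2 * n2), by omega⟩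
        exact (F3 j (by omega)).2.2 (by omega) he
  · rw [abs_le]; push_cast; constructor <;> linarith
  · rw [show 2 * n1 + 2 * n2 - (2 * n1 + 1) = 2 * n2 - 1 by omega, Nat.cast_sub (by omega),
      abs_le]
    push_cast; constructor <;> linarith
  · rw [Nat.add_sub_cancel_left, abs_le]; push_cast; constructor <;> linarith
  · intro k hk
    exact F2 k (by omega)
  · intro k hk
    obtain ⟨g1, g2, -⟩ := F3 k (by omega)
    exact ⟨g1, g2⟩

end left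

/-! ### assembly -/

theorem const_coord (X u : ℤ) (v : ℝ) (h : X = u) :
    |(X : ℝ) - (u + v * ((u : ℝ) - u))| ≤ 3 / 2 := by
  rw [h, sub_self, mul_zero, add_zero, sub_self, abs_zero]
  norm_num

theorem leg_coord' (X u w : ℤ) (σ : ℤ) (k n : ℕ) (hn : 0 < n) (hk : k ≤ n)
    (h1 : |2 * X - (2 * u + σ * k)| ≤ 2) (h2 : |2 * (n : ℤ) - 2 * (2 * (σ * (w - u)))| ≤ 2)
    (hσ : σ = 1 ∨ σ = -1) :
    |(X : ℝ) - (u + ((k : ℝ) / n) * ((w : ℝ) - u))| ≤ 3 / 2 := by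
  apply leg_coord X u w σ k n hn hk h1
  rw [abs_le] at h2 ⊢
  rcases hσ with rfl | rfl
  · constructor <;> linarith [h2.1, h2.2]
  · constructor <;> linarith [h2.1, h2.2]

theorem arc : S_ARC := by
  intro R
  obtain ⟨κ, S, δ0, hκ, hS, hδ0, hδ01, hshape⟩ := R.shape
  refine ⟨10, δ0, by norm_num, hδ0, fun δ hδ hle => ?_⟩
  have hD := (hshape δ hδ hle).ok
  have hA := R.hA
  have hB := R.hB
  have hH := R.hH
  have fl : ((⌊-(R.A / δ)⌋ : ℤ) : ℝ) ≤ -(R.A / δ) := Int.floor_le _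
  have fl' : -(R.A / δ) < ((⌊-(R.A / δ)⌋ : ℤ) : ℝ) + 1 := Int.lt_floor_add_one _
  have cB : R.B / δ ≤ ((⌈R.B / δ⌉ : ℤ) : ℝ) := Int.le_ceil _
  have cB' : ((⌈R.B / δ⌉ : ℤ) : ℝ) < R.B / δ + 1 := Int.ceil_lt_add_one _
  have cH : R.H / δ ≤ ((⌈R.H / δ⌉ : ℤ) : ℝ) := Int.le_ceil _
  have cH' : ((⌈R.H / δ⌉ : ℤ) : ℝ) < R.H / δ + 1 := Int.ceil_lt_add_one _
  have ft : ((⌊R.t / δ⌋ : ℤ) : ℝ) ≤ R.t / δ := Int.floor_le _
  have ft' : R.t / δ < ((⌊R.t / δ⌋ : ℤ) : ℝ) + 1 := Int.lt_floor_add_one _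
  have eA : δ * (R.A / δ) = R.A := by field_simp
  have eB : δ * (R.B / δ) = R.B := by field_simp
  have eH : δ * (R.H / δ) = R.H := by field_simp
  have et : δ * (R.t / δ) = R.t := by field_simp
  have cl : |δ * ((R.dm δ).l : ℝ) - (-R.A)| ≤ 2 * δ := by
    show |δ * ((⌊-(R.A / δ)⌋ + 1 : ℤ) : ℝ) - (-R.A)| ≤ 2 * δ
    push_cast
    rw [abs_le]
    constructor <;> nlinarith
  have cr : |δ * ((R.dm δ).r : ℝ) - R.B| ≤ 2 * δ := by
    show |δ * ((⌈R.B / δ⌉ - 1 : ℤ) : ℝ) - R.B| ≤ 2 * δ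
    push_cast
    rw [abs_le]
    constructor <;> nlinarith
  have ch : |δ * ((R.dm δ).h : ℝ) - R.H| ≤ 2 * δ := by
    show |δ * ((⌈R.H / δ⌉ - 2 : ℤ) : ℝ) - R.H| ≤ 2 * δ
    push_cast
    rw [abs_le]
    constructor <;> nlinarith
  have ct : |δ * ((R.dm δ).t : ℝ) - R.t| ≤ 2 * δ := by
    show |δ * ((⌊R.t / δ⌋ : ℤ) : ℝ) - R.t| ≤ 2 * δ
    rw [abs_le]
    constructor <;> nlinarith
  have c0 : |δ * ((0 : ℤ) : ℝ) - 0| ≤ 2 * δ := by
    simp; positivity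
  constructor
  · obtain ⟨a1, a2, N, h01, h12, h23, hlen, l1, l2, l3, f1, f2, f3⟩ := Rall hD
    unfold Rect.curve arcR
    rw [hlen]
    refine three hδ (fun k => (R.dm δ).walk (R.dm δ).edges k) N a1 a2 h01 h12 h23
      ((R.dm δ).t, (R.dm δ).h) ((R.dm δ).r, (R.dm δ).h) ((R.dm δ).r, 0) (0, 0) _ ?_ ?_ ?_
      ⟨ct, ch⟩ ⟨cr, ch⟩ ⟨cr, c0⟩ ⟨c0, c0⟩
    · intro k hk
      obtain ⟨g1, g2⟩ := f1 k hk
      refine ⟨leg_coord' _ _ _ 1 k a1 h01 hk g2 ?_ (Or.inl rfl), const_coord _ _ _ g1⟩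
      rw [one_mul]; exact l1
    · intro k hk
      obtain ⟨g1, g2⟩ := f2 k hk
      refine ⟨const_coord _ _ _ g1, leg_coord' _ _ _ (-1) k (a2 - a1) (by omega) hk g2 ?_
        (Or.inr rfl)⟩
      rw [zero_sub, mul_neg, neg_mul, one_mul, neg_neg]; exact l2
    · intro k hk
      obtain ⟨g1, g2⟩ := f3 k hk
      refine ⟨leg_coord' _ _ _ (-1) k (N - a2) (by omega) hk g2 ?_
        (Or.inr rfl), const_coord _ _ _ g1⟩
      rw [zero_sub, mul_neg, neg_mul, one_mul, neg_neg]; exact l3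
  · obtain ⟨a1, a2, N, h01, h12, h23, hlen, l1, l2, l3, f1, f2, f3⟩ := Lall hD
    unfold Rect.curve arcL
    rw [hlen]
    refine three hδ (fun k => (R.dm δ).walk ∅ k) N a1 a2 h01 h12 h23
      ((R.dm δ).t, (R.dm δ).h) ((R.dm δ).l, (R.dm δ).h) ((R.dm δ).l, 0) (0, 0) _ ?_ ?_ ?_
      ⟨ct, ch⟩ ⟨cl, ch⟩ ⟨cl, c0⟩ ⟨c0, c0⟩
    · intro k hk
      obtain ⟨g1, g2⟩ := f1 k hk
      refine ⟨leg_coord' _ _ _ (-1) k a1 h01 hk g2 ?_ (Or.inr rfl), const_coord _ _ _ g1⟩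
      rw [neg_mul, one_mul, neg_sub]; exact l1
    · intro k hk
      obtain ⟨g1, g2⟩ := f2 k hk
      refine ⟨const_coord _ _ _ g1, leg_coord' _ _ _ (-1) k (a2 - a1) (by omega) hk g2 ?_
        (Or.inr rfl)⟩
      rw [zero_sub, mul_neg, neg_mul, one_mul, neg_neg]; exact l2
    · intro k hk
      obtain ⟨g1, g2⟩ := f3 k hk
      refine ⟨leg_coord' _ _ _ 1 k (N - a2) (by omega) hk g2 ?_
        (Or.inl rfl), const_coord _ _ _ g1⟩
      rw [one_mul, zero_sub]; exact l3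

end Pool.Agent.N97.EW
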